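import Pool.Agent.helper53.DC.SpecI

/-! # dc:I1 (helper46): reversed Cauchy-Schwarz -/

set_option autoImplicit false

namespace Pool.Agent.helper53.DC

/-- time-like vectors against points of the hyperboloid -/
theorem I1_key {Z : Type} [Fintype Z] (t y : LL Z) (ht : lf t t < 0) (hy : y ∈ Hy Z) :
    |∑ z, t.2 z * y.2 z| < |t.1| * y.1 := by
  obtain ⟨h1, h2⟩ := hy
  have hc := Finset.sum_mul_sq_le_sq_mul_sq Finset.univ t.2 y.2
  unfold lf at h1 ht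
  have hT : ∑ z, t.2 z ^ 2 = ∑ z, t.2 z * t.2 z := Finset.sum_congr rfl fun z _ => by ring
  have hY : ∑ z, y.2 z ^ 2 = ∑ z, y.2 z * y.2 z := Finset.sum_congr rfl fun z _ => by ring
  have hT0 : 0 ≤ ∑ z, t.2 z ^ 2 := Finset.sum_nonneg fun z _ => sq_nonneg _
  have hY0 : 0 ≤ ∑ z, y.2 z ^ 2 := Finset.sum_nonneg fun z _ => sq_nonneg _
  rw [← hT] at ht
  rw [← hY] at h1
  have h3 : (∑ z, t.2 z ^ 2) * (∑ z, y.2 z ^ 2) ≤ (∑ z, t.2 z ^ 2) * y.1 ^ 2 :=
    mul_le_mul_of_nonneg_left (by nlinarith) hT0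
  have h4 : (∑ z, t.2 z ^ 2) * y.1 ^ 2 < t.1 ^ 2 * y.1 ^ 2 :=
    mul_lt_mul_of_pos_right (by nlinarith) (by positivity)
  have h5 : (∑ z, t.2 z * y.2 z) ^ 2 < (|t.1| * y.1) ^ 2 := by
    rw [mul_pow, sq_abs]
    linarith
  exact abs_lt_of_sq_lt_sq h5 (by positivity)

theorem I1 : I1_stmt := by
  intro Z _
  refine ⟨?_, ?_, ?_, ?_⟩
  · intro y hy y' hy'
    obtain ⟨h1, h2⟩ := hy
    obtain ⟨h3, h4⟩ := hy'
    have hc := Finset.sum_mul_sq_le_sq_mul_sq Finset.univ y.2 y'.2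
    unfold lf at h1 h3 ⊢
    have hT : ∑ z, y.2 z ^ 2 = ∑ z, y.2 z * y.2 z := Finset.sum_congr rfl fun z _ => by ring
    have hY : ∑ z, y'.2 z ^ 2 = ∑ z, y'.2 z * y'.2 z := Finset.sum_congr rfl fun z _ => by ring
    rw [← hT] at h1
    rw [← hY] at h3
    have h5 : 0 ≤ ∑ z, (y.2 z - y'.2 z) ^ 2 := Finset.sum_nonneg fun z _ => sq_nonneg _
    have h6 : ∑ z, (y.2 z - y'.2 z) ^ 2 =
        ∑ z, y.2 z ^ 2 + ∑ z, y'.2 z ^ 2 - 2 * ∑ z, y.2 z * y'.2 z := by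
      rw [Finset.mul_sum, ← Finset.sum_add_distrib, ← Finset.sum_sub_distrib]
      exact Finset.sum_congr rfl fun z _ => by ring
    obtain ⟨S, hS⟩ : ∃ S, S = ∑ z, y.2 z * y'.2 z := ⟨_, rfl⟩
    obtain ⟨A, hA⟩ : ∃ A, A = ∑ z, y.2 z ^ 2 := ⟨_, rfl⟩
    obtain ⟨B, hB⟩ : ∃ B, B = ∑ z, y'.2 z ^ 2 := ⟨_, rfl⟩
    rw [← hS, ← hA, ← hB] at hc h6
    rw [← hA] at h1
    rw [← hB] at h3
    rw [← hS]
    have e1 : y.1 ^ 2 = 1 + A := by linarith
    have e2 : y'.1 ^ 2 = 1 + B := by linarith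
    have h7 : (1 + S) ^ 2 ≤ (y.1 * y'.1) ^ 2 := by
      rw [mul_pow, e1, e2]
      nlinarith
    have h8 : 1 + S ≤ y.1 * y'.1 := by
      have h9 := abs_le_of_sq_le_sq h7 (by positivity)
      exact (abs_le.1 h9).2
    linarith
  · intro t ht y hy z hz hpos
    have h1 := I1_key t y ht hy
    have h2 := I1_key t z ht hz
    have ht1 : t.1 < 0 := by
      by_contra hcon
      push Not at hcon
      rw [abs_of_nonneg hcon] at h2
      unfold lf at hpos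
      have := le_abs_self (∑ w, t.2 w * z.2 w)
      linarith
    rw [abs_of_neg ht1] at h1
    unfold lf
    have := neg_abs_le (∑ w, t.2 w * y.2 w)
    linarith
  · intro u v hu hv
    by_contra hcon
    push Not at hcon
    have h1 : 0 ≤ v.1 ^ 2 * lf u u - 2 * (u.1 * v.1) * lf u v + u.1 ^ 2 * lf v v := by
      have h2 : v.1 ^ 2 * lf u u - 2 * (u.1 * v.1) * lf u v + u.1 ^ 2 * lf v v =
          ∑ z, (v.1 * u.2 z - u.1 * v.2 z) ^ 2 := by
        have h3 : ∑ z, (v.1 * u.2 z - u.1 * v.2 z) ^ 2 = v.1 ^ 2 * ∑ z, u.2 z * u.2 z -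
            2 * (u.1 * v.1) * ∑ z, u.2 z * v.2 z + u.1 ^ 2 * ∑ z, v.2 z * v.2 z := by
          rw [Finset.mul_sum, Finset.mul_sum, Finset.mul_sum, ← Finset.sum_sub_distrib,
            ← Finset.sum_add_distrib]
          exact Finset.sum_congr rfl fun z _ => by ring
        rw [h3]
        unfold lf
        ring
      rw [h2]
      exact Finset.sum_nonneg fun z _ => sq_nonneg _
    have hu1 : 0 < u.1 ^ 2 := by
      have h2 : 0 ≤ ∑ z, u.2 z * u.2 z := Finset.sum_nonneg fun z _ => mul_self_nonneg _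
      unfold lf at hu
      nlinarith
    have h4 : lf u u * (v.1 ^ 2 * lf u u - 2 * (u.1 * v.1) * lf u v + u.1 ^ 2 * lf v v) =
        (lf u u * v.1 - lf u v * u.1) ^ 2 + (lf u u * lf v v - lf u v ^ 2) * u.1 ^ 2 := by ring
    have h5 : lf u u * (v.1 ^ 2 * lf u u - 2 * (u.1 * v.1) * lf u v + u.1 ^ 2 * lf v v) ≤ 0 :=
      mul_nonpos_of_nonpos_of_nonneg hu.le h1
    have h6 : 0 < (lf u u * lf v v - lf u v ^ 2) * u.1 ^ 2 := mul_pos (by linarith) hu1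
    have h7 := sq_nonneg (lf u u * v.1 - lf u v * u.1)
    linarith
  · intro n hn y hy
    have h1 : lf (rf n y) (rf n y) = -1 := by rw [lf_rf_rf hn]; exact hy.1
    refine ⟨h1, ?_⟩
    have h2 := I1_key (rf n y) y (by rw [h1]; norm_num) hy
    have h3 : lf (rf n y) y = -1 - 2 * (lf n y) ^ 2 := by
      have h4 : rf n y = y - (2 * lf n y) • n := rfl
      rw [h4, lf_sub_left, lf_smul_left, hy.1]
      ring
    by_contra hcon
    push Not at hcon
    rw [abs_of_nonpos hcon] at h2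
    have h5 := neg_abs_le (∑ w, (rf n y).2 w * y.2 w)
    have h6 : lf (rf n y) y = -((rf n y).1 * y.1) + ∑ w, (rf n y).2 w * y.2 w := rfl
    have h7 := sq_nonneg (lf n y)
    linarith

end Pool.Agent.helper53.DC
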