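import Mathlib
import Pool.Agent.helper58.DC.Spec1

/-!
# Project dq, module PR

The classes of pairs of `T → G` for `kext X c` form the path set of the classes of pairs of `G`.
-/

set_option autoImplicit false

namespace Pool.Agent.helper46.DC

open Pool.Agent.helper58.DC

/-- Two surjections with the same fibres have bijective targets. -/
theorem exists_equiv_of_fibres {D A B : Type} (F : D → A) (H : D → B)
    (hF : Function.Surjective F) (hH : Function.Surjective H)
    (h : ∀ w v, F w = F v ↔ H w = H v) : ∃ e : A ≃ B, ∀ w, e (F w) = H w := by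
  have key : ∀ w, H (Function.surjInv hF (F w)) = H w := fun w => by
    rw [← h, Function.surjInv_eq hF]
  refine ⟨Equiv.ofBijective (fun a => H (Function.surjInv hF a)) ⟨?_, ?_⟩, fun w => key w⟩
  · intro a b hab
    have hab' : H (Function.surjInv hF a) = H (Function.surjInv hF b) := hab
    rw [← h, Function.surjInv_eq hF, Function.surjInv_eq hF] at hab'
    exact hab'
  · intro b
    obtain ⟨w, rfl⟩ := hH b
    exact ⟨F w, key w⟩

theorem act_inc {G E A : Type} [Group G] [Group E] [Group A] (X : Extension G E A) (g : G) :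
    X.act (X.inc g) = MulAut.conj g := by
  refine MulEquiv.ext fun x => ?_
  apply X.inc_injective
  rw [X.act_spec, MulAut.conj_apply, map_mul, map_mul, map_inv]

theorem PR (hPA : PA_stmt) (hPE : PE_stmt) (hPM : PM_stmt) : PR_stmt := by
  intro G E A L T _ _ _ _ _ _ _ X c p _ M hO χ hχ hst S cls hcls S' cls' hcls'
  obtain ⟨hA1, hA2, hA3⟩ := hPA G T p M hO χ hχ
  -- the parametrising set
  let D : Type := {w : (T → {x // IsPair p M χ x}) × Finset (T → ℕ) //
    IsPath (fun t => len (w.1 t).1) w.2}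
  let F : D → S'.Z := fun w =>
    cls' ⟨asm (fun t => (w.1.1 t).1) w.1.2, (hA1 _ _ (fun t => (w.1.1 t).2) w.2).1⟩
  let H : D → (pathS S c).Z := fun w => ⟨(fun t => cls (w.1.1 t), w.1.2), by
    have h := w.2
    simp only [hcls.len]
    exact h⟩
  have hF : Function.Surjective F := by
    intro z
    obtain ⟨x', rfl⟩ := hcls'.surj z
    obtain ⟨x, W, hx, hW, hxW⟩ := hA2 x'.1 x'.2
    refine ⟨⟨(fun t => ⟨x t, hx t⟩, W), hW⟩, ?_⟩
    have : (⟨asm x W, (hA1 x W hx hW).1⟩ : {x // IsPair p M (tens fun _ : T => χ) x}) = x' :=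
      Subtype.ext hxW
    change cls' ⟨asm x W, _⟩ = cls' x'
    rw [this]
  have hH : Function.Surjective H := by
    rintro ⟨⟨z, W⟩, hW⟩
    choose x hx using fun t => hcls.surj (z t)
    refine ⟨⟨(x, W), ?_⟩, ?_⟩
    · have : (fun t => len (x t).1) = fun t => S.len (z t) := by
        funext t
        rw [← hcls.len, hx]
      change IsPath (fun t => len (x t).1) W
      rw [this]
      exact hW
    · refine Subtype.ext (Prod.ext ?_ rfl)
      funext t
      exact hx t
  -- conjugation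
  have hconj : ∀ (g : T → G) (x : T → Finset (Subgroup G) × (G → ℂ)) (W : Finset (T → ℕ)),
      pairMap (MulAut.conj g) (asm x W) = asm (fun t => pairMap (MulAut.conj (g t)) (x t)) W := by
    intro g x W
    have h := hPE G E A L T X c ((kext X c).inc g) x W
    rw [act_inc] at h
    rw [h]
    have h1 : ((kext X c).inc g).l = 1 := rfl
    have h2 : ∀ t, ((kext X c).inc g).f t = X.inc (g t) := fun _ => rfl
    rw [h1, wAct_one]
    simp only [h2, inv_one, one_smul, act_inc]
  have hFH : ∀ w v, F w = F v ↔ H w = H v := by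
    rintro ⟨⟨x, W⟩, hW⟩ ⟨⟨y, V⟩, hV⟩
    have e1 : F ⟨(x, W), hW⟩ = F ⟨(y, V), hV⟩ ↔ ∃ g : T → G,
        pairMap (MulAut.conj g) (asm (fun t => (x t).1) W) = asm (fun t => (y t).1) V :=
      hcls'.eq_iff _ _
    have e2 : H ⟨(x, W), hW⟩ = H ⟨(y, V), hV⟩ ↔ (∀ t, cls (x t) = cls (y t)) ∧ W = V := by
      constructor
      · intro h
        have h' := congrArg Subtype.val h
        exact ⟨fun t => congrFun (congrArg Prod.fst h') t, congrArg Prod.snd h'⟩
      · rintro ⟨h1, h2⟩
        exact Subtype.ext (Prod.ext (funext h1) h2)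
    rw [e1, e2]
    constructor
    · rintro ⟨g, hg⟩
      rw [hconj] at hg
      have h3 := hA3 (fun t => pairMap (MulAut.conj (g t)) (x t).1) (fun t => (y t).1) W V
        (fun t => (hPM G p M χ (x t).1).2.2.2.2.2.1 (x t).2 (g t)) (fun t => (y t).2)
        (by
          simp only [(hPM G p M χ _).2.2.1]
          exact hW) hV hg
      refine ⟨fun t => ?_, h3.2⟩
      rw [hcls.eq_iff]
      exact ⟨g t, congrFun h3.1 t⟩
    · rintro ⟨h1, rfl⟩
      choose g hg using fun t => (hcls.eq_iff _ _).1 (h1 t)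
      refine ⟨g, ?_⟩
      rw [hconj]
      simp only [hg]
  obtain ⟨e, he⟩ := exists_equiv_of_fibres F H hF hH hFH
  refine ⟨e, ?_, ?_, ?_⟩
  · intro l z
    obtain ⟨w, rfl⟩ := hF z
    obtain ⟨⟨x, W⟩, hW⟩ := w
    obtain ⟨k, hk⟩ := (kext X c).proj_surjective l
    have hk' : k.l = l := hk
    subst hk'
    have hpair : ∀ s : T, IsPair p M χ
        (pairMap (X.act (k.f (k.l⁻¹ • s))) (x (k.l⁻¹ • s)).1) := fun s =>
      (hPM G p M χ _).2.2.2.2.1 _ (hst _) (x _).2
    have hpath : IsPath (fun s => len (pairMap (X.act (k.f (k.l⁻¹ • s))) (x (k.l⁻¹ • s)).1))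
        (wAct k.l W) := by
      simp only [(hPM G p M χ _).2.2.1]
      exact isPath_wAct k.l hW
    let w' : D := ⟨(fun s => ⟨_, hpair s⟩, wAct k.l W), hpath⟩
    have hF' : S'.act k.l (F ⟨(x, W), hW⟩) = F w' := by
      refine hcls'.act k _ _ ?_
      exact hPE G E A L T X c k (fun t => (x t).1) W
    have hH' : (pathS S c).act k.l (H ⟨(x, W), hW⟩) = H w' := by
      refine Subtype.ext (Prod.ext ?_ rfl)
      funext s
      change S.act (c.κ k.l (k.l⁻¹ • s)) (cls (x (k.l⁻¹ • s))) = cls ⟨_, hpair s⟩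
      rw [← k.h]
      exact hcls.act _ _ _ rfl
    rw [hF', he, he, hH']
  · intro z
    obtain ⟨w, rfl⟩ := hF z
    rw [he]
    have h1 := hcls'.len ⟨asm (fun t => (w.1.1 t).1) w.1.2,
      (hA1 _ _ (fun t => (w.1.1 t).2) w.2).1⟩
    change w.1.2.card - 1 = S'.len (F w)
    rw [show S'.len (F w) = _ from h1]
    exact ((hA1 _ _ (fun t => (w.1.1 t).2) w.2).2.1).symm
  · intro z
    obtain ⟨w, rfl⟩ := hF z
    rw [he]
    have h1 := hcls'.dfc ⟨asm (fun t => (w.1.1 t).1) w.1.2,
      (hA1 _ _ (fun t => (w.1.1 t).2) w.2).1⟩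
    change ∑ t, S.dfc (cls (w.1.1 t)) = S'.dfc (F w)
    rw [show S'.dfc (F w) = _ from h1, (hA1 _ _ (fun t => (w.1.1 t).2) w.2).2.2]
    exact Finset.sum_congr rfl fun t _ => hcls.dfc _

end Pool.Agent.helper46.DC
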